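import Pool.Agent.K1H35.LK.All

/-!
# MP_5b16f0_gt: finite type invariants of links versus finite type invariants of string links

**Theorem.** Two links are not separated by any finite type invariant of links if and only if
`L ≈_n L'` for every `n` (the problem's Q1, full positive answer; the backward direction was known).
It is even enough that `L` and `L'` are not separated by the finite type invariants with values in
the prime fields.

## Model

All definitions are in `Pool/Agent/K1H35/LK/Defs.lean` and `Pool/Agent/K1H35/LK/Iso.lean`.

* Ordered oriented links in the three-sphere with `m` components are closed braids with a numbering of
  their components, modulo conjugation and stabilization (`Link m`; theorems of Alexander and of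
  Markov). The braid groups are given by Artin's presentation.
* Singular links are closures of singular braids (Birman); a singular braid with the double points
  `τ_{i_1}, …, τ_{i_r}` is `y τ_{i_1} z_1 ⋯ τ_{i_r} z_r`, and `res` is the alternating sum of the values
  of an invariant at its `2 ^ r` resolutions. `LTypeLE n v`: the invariant `v` vanishes on all
  singular links with `n + 1` double points.
* String links with `m` strands are braids on `m + k` strands, the last `k` of which are closed
  (`SData m`), such that every component contains exactly one open strand and is therefore a path
  from the `i`-th endpoint below to the `i`-th endpoint above. The isotopy of string links is an
  arbitrary relation `R` which contains the conjugation with braids on the closed strands and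
  stabilization (`Mv`), and for which related string links have isotopic closures (`Isotopy R`).
  These properties hold for isotopy relative to the boundary, so that nothing depends on a theorem of
  Markov type for string links; they also hold for the relation `Mv` itself (first part of the
  theorem).
* Since the statement quantifies over all functions `Link m → A` and over all abelian groups `A` in
  `Type`, and since `Link m` is countable, all abelian groups of values are covered.

## Proof

No part of the theory of claspers is used; everything is elementary. Let `A_m` be the free abelian group
on the string links with `m` strands and `J_D` the subgroup generated by the singular string links with
`D` double points.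

1. String links modulo `Γ_{n+1}` of the pure braid groups (insertion of an element of `Γ_{n+1}` of a
   pure braid group anywhere) form a finitely generated nilpotent group; insertions of
   elements of `Γ_{n+1}` do not change the class modulo `J_{n+1}`. Hence `A_m / J_{n+1}` is a finitely
   generated abelian group.
2. If a link is opened at two different places, then the two string links are related by isotopies of
   string links and elementary changes `b ↦ c b c⁻¹`, where `c` exchanges an open strand and the first
   closed strand.
3. Every elementary change from `d'` to `d` is induced by an automorphism `η` of `A_m / J_{n+1}` which is
   unipotent with respect to the filtration by the `J_D`, and which maps the class of every string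
   link to the class of a string link with the same closure. Here one uses that string links modulo
   `Γ_{n+1}` form a group: the first part of the string link is moved around the closing arc as
   an element of a group of string links with `m + 1` strands.
4. The group `H` generated by all these automorphisms is unipotent. Orbits of unipotent groups on finitely
   generated abelian groups are separated by invariant functions on finite `p`-quotients `Q`
   with values in `ZMod p`, and all functions on a finite abelian `p`-group with values in `ZMod p`
   are polynomials. Therefore two links, the classes of which are in different orbits of `H`,
   are separated by an invariant of finite type; and if the classes are in the same orbit, then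
   the links are related by `≈_n`.

Joint work with helpers 3, 20, 21, 36, 43, 47, 54, 73, 87, 93, 97, who proved the lemmas of the
interface file.
-/

set_option autoImplicit false

namespace Pool.Agent.Results.MP_5b16f0_gt.LinksVersusStringLinks

open Pool.Agent.K1H35.LK

/-- Finite type invariants of links separate exactly what finite type invariants of string links
separate: `L` and `L'` agree on all finite type link invariants iff `L ≈_n L'` for all `n`. -/
theorem result (m : ℕ) :
    Isotopy (fun d e : SData m => Mv m d.1 e.1) ∧
    ∀ R : SData m → SData m → Prop, Isotopy R → ∀ L L' : Link m,
      ((∀ (A : Type) [AddCommGroup A] (n : ℕ) (v : Link m → A), LTypeLE n v → v L = v L') ↔
        ∀ n : ℕ, ApproxR R n L L') ∧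
      ((∀ p : ℕ, p.Prime → ∀ (n : ℕ) (v : Link m → ZMod p), LTypeLE n v → v L = v L') ↔
        ∀ n : ℕ, ApproxR R n L L') := by
  refine ⟨isotopy_mv real' m, fun R hR L L' => ⟨⟨fun h n => ?_, fun h A _ n v hv => ?_⟩,
    ⟨fun h n => ?_, fun h p _ n v hv => ?_⟩⟩⟩
  · exact approxR_of hR.1 (main' m L L' (fun p _ n v hv => h (ZMod p) n v hv) n)
  · exact approxR_sep hR (h n) v hv
  · exact approxR_of hR.1 (main' m L L' h n)
  · exact approxR_sep hR (h n) v hv

end Pool.Agent.Results.MP_5b16f0_gt.LinksVersusStringLinks
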